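import Pool.Agent.Y535.RK.Pos

/-!
# The core theorem
-/

set_option autoImplicit false

namespace Pool.Agent.Y535.RK

open Pool.Agent.Y269.RK Pool.Agent.Helper133.BT Pool.Agent.Helper133.BU
open Matrix hiding gram
open scoped ComplexOrder Topology

section Cont

variable {m M K0 : ℕ} {n : ℕ → ℕ} {I : Type} [Fintype I] [DecidableEq I]
  (par : ℕ → Fin m → ZMod 2) (sg : ℕ → I → ZMod 2) (w : Fin m → Fin M → I → ℂ)

lemma cont_WW (c : Fin m) (a : Fin M) (i : I) :
    Continuous fun p : (Fin m → Fin M → Zt I n K0) × Et I m n K0 =>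
      WW w (Psi par sg) p.1 p.2 c a i := by
  unfold WW
  simp only [Pi.add_apply, Psi_apply]
  refine continuous_const.add (continuous_finsetSum _ fun r _ => ?_)
  refine (Complex.continuous_ofReal.comp ?_).mul ?_
  · exact (psi_contDiff par sg c i r).continuous.comp continuous_snd
  · exact (continuous_apply r).comp ((continuous_apply i).comp ((continuous_apply a).comp
      ((continuous_apply c).comp continuous_fst)))

lemma cont_herm (c c' : Fin m) (a b : Fin M) :
    Continuous fun p : (Fin m → Fin M → Zt I n K0) × Et I m n K0 =>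
      herm (Matrix.of p.2.1) (WW w (Psi par sg) p.1 p.2 c a) (WW w (Psi par sg) p.1 p.2 c' b) := by
  simp only [herm_sum, Matrix.of_apply]
  refine continuous_finsetSum _ fun i _ => continuous_finsetSum _ fun j _ => ?_
  refine ((cont_WW par sg w c a i).star.mul ?_).mul (cont_WW par sg w c' b j)
  exact (continuous_apply j).comp ((continuous_apply i).comp
    (continuous_fst.comp continuous_snd))

lemma cont_det (c : Fin m) :
    Continuous fun p : (Fin m → Fin M → Zt I n K0) × Et I m n K0 =>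
      (gram (Matrix.of p.2.1) (WW w (Psi par sg) p.1 p.2 c)).det := by
  refine Continuous.matrix_det ?_
  refine continuous_matrix fun a b => ?_
  exact cont_herm par sg w c c a b

end Cont

/-- the restriction -/
def res (n : ℕ → ℕ) (K0 : ℕ) (y : Om n) : Yt n K0 := fun k => y k

lemma res_mem {n : ℕ → ℕ} {K0 : ℕ} {y : Om n} (hy : y ∈ PP n) : res n K0 y ∈ YY n K0 :=
  fun k => hy k

lemma res_flp {n : ℕ → ℕ} {K0 : ℕ} (y : Om n) (k : Fin K0) :
    res n K0 (flp n k y) = flf k (res n K0 y) := by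
  funext k'
  unfold res flp flf
  by_cases h : k' = k
  · subst h
    rw [Function.update_self, Function.update_self]
  · rw [Function.update_of_ne h, Function.update_of_ne]
    exact fun h' => h (Fin.ext h')

lemma cont_res (n : ℕ → ℕ) (K0 : ℕ) : Continuous (res n K0) :=
  continuous_pi fun k => continuous_apply (k : ℕ)

theorem core (hIM : S_PAR_IMAGE) (hSPH : S_PAR_SPH) (hGEN : S_GEN) (hEX : S_EX)
    (hPOS : S_POS) : S_CORE := by
  intro m M K0 q δ ρ par I _ _ sg w η η' X hM hq hqm hη hsep hw hli hX hH hfl hlow1 hup hlow h1 hδ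
    hdim
  classical
  obtain ⟨pos, hp1, hp2, hp3, hp4, hp5⟩ := hPOS I
  set Ω : Set ((Fin m → ℝ) × Yt (nsp par K0 M) K0) := TT m q ×ˢ YY (nsp par K0 M) K0 with hΩ
  -- the shifted matrices
  obtain ⟨Xs, hXs⟩ : ∃ Xs : (Fin m → ℝ) × Yt (nsp par K0 M) K0 → Matrix I I ℂ,
      ∀ p, Xs p = X p.1 p.2 - (η : ℂ) • (1 : Matrix I I ℂ) := ⟨_, fun _ => rfl⟩
  have hXsH : ∀ p ∈ Ω, (Xs p).IsHermitian := by
    intro p hp
    rw [hXs]
    refine (hH p.1 hp.1 p.2 hp.2).sub ?_
    rw [Matrix.IsHermitian, Matrix.conjTranspose_smul, Matrix.conjTranspose_one]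
    simp
  have hXsL : ∀ i j, LocallyLipschitzOn Ω fun p => Xs p i j := by
    intro i j x hx
    obtain ⟨Kc, T, hT, hL⟩ := hX i j hx
    refine ⟨Kc, T, hT, fun a ha b hb => ?_⟩
    have := hL ha hb
    simp only [hXs, Matrix.sub_apply]
    rw [edist_sub_right]
    exact this
  obtain ⟨gE, hgE⟩ : ∃ gE : (Fin m → ℝ) × Yt (nsp par K0 M) K0 → Et I m (nsp par K0 M) K0,
      ∀ p, gE p = ((fun i j => pos (Xs p) i j : I → I → ℂ), p) := ⟨_, fun _ => rfl⟩
  have hgL : LocallyLipschitzOn Ω gE := by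
    have := pos_lip Ω pos hp4 Xs hXsL hXsH
    have e : gE = fun p => ((fun i j => pos (Xs p) i j : I → I → ℂ), p) := funext hgE
    rw [e]
    exact this
  have hmat : ∀ p, Matrix.of (gE p).1 = pos (Xs p) := by
    intro p
    rw [hgE]
    rfl
  have hs2 : ∀ p, (gE p).2 = p := fun p => by rw [hgE]
  -- properties of the positive part
  have hre : ∀ p (v : I → ℂ), (herm (Xs p) v v).re =
      (herm (X p.1 p.2) v v).re - η * ∑ i, ‖v i‖ ^ 2 := by
    intro p v
    rw [hXs, herm_sub_left, Complex.sub_re, herm_smul_one]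
  have hPsd : ∀ p ∈ Ω, (pos (Xs p)).PosSemidef := fun p hp => (hp1 _ (hXsH p hp)).1
  have hrk1 : ∀ p ∈ Ω, (pos (Xs p)).rank < m * M := by
    intro p hp
    obtain ⟨F, hF1, hF2⟩ := hp2 _ (hXsH p hp)
    rw [← hF1]
    refine hup p.1 hp.1 p.2 hp.2 F fun v hv => ?_
    by_cases hv0 : v = 0
    · subst hv0
      simp [herm]
    · have := hF2 v hv hv0
      rw [hre] at this
      linarith
  have hnpos : ∀ v : I → ℂ, v ≠ 0 → 0 < ∑ i, ‖v i‖ ^ 2 := by
    intro v hv
    obtain ⟨i, hi⟩ := Function.ne_iff.1 hv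
    refine Finset.sum_pos' (fun i _ => by positivity) ⟨i, Finset.mem_univ _, ?_⟩
    have : 0 < ‖v i‖ := norm_pos_iff.2 hi
    positivity
  have hrk2 : ∀ p ∈ Ω, ρ ≤ (pos (Xs p)).rank := by
    intro p hp
    obtain ⟨F, hF1, hF2⟩ := hlow p.1 hp.1 p.2 hp.2
    refine hF1.trans (hp3 _ F (hXsH p hp) fun v hv hv0 => ?_)
    rw [hre]
    have h2 := hF2 v hv
    have h3 := mul_lt_mul_of_pos_right hη (hnpos v hv0)
    linarith
  have hgram1 : ∀ p ∈ Ω, ∀ c, p.1 c = 1 → (gram (pos (Xs p)) (w c)).det ≠ 0 := by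
    intro p hp c hc
    refine gram_det_ne (hli c) fun v hv hv0 => ?_
    have h2 := hlow1 p.1 hp.1 p.2 hp.2 c hc v hv
    have h3 := herm_nonneg (hp1 _ (hXsH p hp)).2 v
    rw [herm_sub_left, Complex.sub_re, hre] at h3
    have h4 := mul_lt_mul_of_pos_right hη (hnpos v hv0)
    linarith
  -- genericity
  set S : Set (Et I m (nsp par K0 M) K0) := gE '' Ω with hS
  have hPar : Par (m + ∑ k : Fin K0, (nsp par K0 M) k) S :=
    hIM _ _ _ Ω gE (hSPH m K0 (nsp par K0 M) (TT m q)) hgL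
  have hD : m + ∑ k : Fin K0, (nsp par K0 M) k ≤ m + K0 + M ^ 2 * (m * (m - 1)) := by
    have := sum_nsp par K0 M
    omega
  have hgen := hGEN m M q δ ρ (m + ∑ k : Fin K0, (nsp par K0 M) k) I (Et I m (nsp par K0 M) K0) (Zt I (nsp par K0 M) K0) S
    (fun x => Matrix.of x.1) w (Psi par sg) hPar ?_ (fun c => Psi_contDiff par sg c) ?_ ?_ ?_ h1 hδ ?_
  rotate_left
  · intro i j
    exact ((ContinuousLinearMap.proj (R := ℝ) (φ := fun _ : I => ℂ) j).comp
      ((ContinuousLinearMap.proj (R := ℝ) (φ := fun _ : I => (I → ℂ)) i).comp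
        (ContinuousLinearMap.fst ℝ (I → I → ℂ) ((Fin m → ℝ) × Yt (nsp par K0 M) K0)))).contDiff
  · rintro x ⟨p, hp, rfl⟩
    show (Matrix.of (gE p).1).PosSemidef
    rw [hmat]
    exact hPsd p hp
  · rintro x ⟨p, hp, rfl⟩
    show ρ ≤ (Matrix.of (gE p).1).rank
    rw [hmat]
    exact hrk2 p hp
  · rintro x ⟨p, hp, rfl⟩ c
    refine Psi_surj par sg c _ ?_
    rw [hs2]
    exact hp.2
  · refine lt_of_le_of_lt ?_ hdim
    gcongr
  -- small perturbations
  have hΩc : ∀ c, IsCompact (gE '' (Ω ∩ {p | p.1 c = 1})) := by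
    intro c
    refine IsCompact.image_of_continuousOn ?_ (hgL.continuousOn.mono Set.inter_subset_left)
    refine ((TT_compact m q).prod (YY_compact (nsp par K0 M) K0)).inter_right ?_
    exact isClosed_eq ((continuous_apply c).comp continuous_fst) continuous_const
  have hsm : ∀ c, ∀ᶠ z in 𝓝 (0 : Fin m → Fin M → Zt I (nsp par K0 M) K0),
      ∀ x ∈ gE '' (Ω ∩ {p | p.1 c = 1}),
        (gram (Matrix.of x.1) (WW w (Psi par sg) z x c)).det ≠ 0 := by
    intro c
    refine (hΩc c).eventually_forall_of_forall_eventually fun x hx => ?_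
    have hc := (cont_det (K0 := K0) (n := nsp par K0 M) par sg w c).continuousAt (x := (0, x))
    refine hc.eventually_ne ?_
    obtain ⟨p, ⟨hp, hpc⟩, rfl⟩ := hx
    have h2 : WW w (Psi par sg) (0 : Fin m → Fin M → Zt I (nsp par K0 M) K0) (gE p) c = w c := by
      funext a
      unfold WW
      simp
    show (gram (Matrix.of (gE p).1) (WW w (Psi par sg) 0 (gE p) c)).det ≠ 0
    rw [h2, hmat]
    exact hgram1 p hp c hpc
  obtain ⟨z, hz1, hz2⟩ := mem_closure_iff_nhds.1 (hgen 0) _ (Filter.eventually_all.2 hsm)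
  simp only [Set.mem_ofPred_eq] at hz1 hz2
  -- existence
  obtain ⟨Γ, hΓ⟩ : ∃ Γ : (Fin m → ℝ) → Om (nsp par K0 M) → Matrix (Fin m × Fin M) (Fin m × Fin M) ℂ,
      ∀ t y, Γ t y = gram (Matrix.of (gE (t, res (nsp par K0 M) K0 y)).1)
        (fun ca : Fin m × Fin M => WW w (Psi par sg) z (gE (t, res (nsp par K0 M) K0 y)) ca.1 ca.2) :=
    ⟨_, fun _ _ => rfl⟩
  have hmem : ∀ t ∈ TT m q, ∀ y ∈ PP (nsp par K0 M), (t, res (nsp par K0 M) K0 y) ∈ Ω := fun t ht y hy => ⟨ht, res_mem hy⟩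
  have hex := hEX m M K0 q par Γ hM hq hqm hsep ?_ ?_ ?_ ?_
  rotate_left
  · intro i j
    have h2 : ContinuousOn (fun v : (Fin m → ℝ) × Om (nsp par K0 M) => gE (v.1, res (nsp par K0 M) K0 v.2))
        (TT m q ×ˢ PP (nsp par K0 M)) := by
      refine hgL.continuousOn.comp (t := Ω)
        (continuous_fst.prodMk ((cont_res (nsp par K0 M) K0).comp continuous_snd)).continuousOn ?_
      rintro ⟨t, y⟩ ⟨ht, hy⟩
      exact hmem t ht y hy
    have h3 := (cont_herm (K0 := K0) (n := nsp par K0 M) par sg w i.1 j.1 i.2 j.2).comp_continuousOn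
      (continuousOn_const (c := z).prodMk h2)
    refine h3.congr fun v _ => ?_
    rw [hΓ]
    rfl
  · intro t ht y hy
    have hp := hmem t ht y hy
    rw [hΓ, hmat]
    refine ⟨gram_psd (hPsd _ hp) _, det_zero_of_rank _ ?_⟩
    refine lt_of_le_of_lt (gram_rank _ _) ?_
    rw [Fintype.card_prod, Fintype.card_fin, Fintype.card_fin]
    exact hrk1 _ hp
  · intro t ht y hy k hk c c' a b
    have hp := hmem t ht y hy
    rw [hΓ, hΓ, hmat, hmat]
    show herm _ _ _ = _ * herm _ _ _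
    rw [res_flp (n := nsp par K0 M) y ⟨k, hk⟩]
    -- the matrix at the reflected point
    have hXf : Xs (t, flf ⟨k, hk⟩ (res (nsp par K0 M) K0 y)) = Matrix.of fun i j =>
        ((sgn (sg k i) : ℝ) : ℂ) * ((sgn (sg k j) : ℝ) : ℂ) * Xs (t, res (nsp par K0 M) K0 y) i j := by
      ext i j
      rw [hXs, hXs, Matrix.of_apply, Matrix.sub_apply, Matrix.sub_apply,
        hfl t ht _ (res_mem hy) ⟨k, hk⟩ i j, sgn_add]
      rw [Matrix.smul_apply, Matrix.one_apply]
      push_cast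
      by_cases hij : i = j
      · subst hij
        have h5 : ((sgn (sg k i) : ℝ) : ℂ) * ((sgn (sg k i) : ℝ) : ℂ) = 1 := by
          exact_mod_cast congrArg (fun x : ℝ => (x : ℂ)) (sgn_sq (sg k i))
        rw [h5]
        ring
      · rw [if_neg hij]
        simp
    have hposf : pos (Xs (t, flf ⟨k, hk⟩ (res (nsp par K0 M) K0 y))) = Matrix.of fun i j =>
        ((sgn (sg k i) : ℝ) : ℂ) * ((sgn (sg k j) : ℝ) : ℂ) * pos (Xs (t, res (nsp par K0 M) K0 y)) i j := by
      rw [hXf]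
      exact hp5 _ (fun i => sgn (sg k i)) (hXsH _ hp) fun i => sgn_or _
    have hWf : ∀ (c : Fin m) (a : Fin M) (i : I),
        WW w (Psi par sg) z (gE (t, flf ⟨k, hk⟩ (res (nsp par K0 M) K0 y))) c a i =
          (sgn (sg k i + par k c) : ℂ) * WW w (Psi par sg) z (gE (t, res (nsp par K0 M) K0 y)) c a i := by
      intro c a i
      rw [hgE, hgE]
      exact WW_flf par sg w hw z _ _ t (res (nsp par K0 M) K0 y) ⟨k, hk⟩ c a i
    rw [hposf, herm_sum, herm_sum, Finset.mul_sum]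
    refine Finset.sum_congr rfl fun i _ => ?_
    rw [Finset.mul_sum]
    refine Finset.sum_congr rfl fun j _ => ?_
    beta_reduce
    rw [hWf, hWf, Matrix.of_apply, star_mul']
    have e1 : star ((sgn (sg k i + par k c) : ℝ) : ℂ) = ((sgn (sg k i) : ℝ) : ℂ) *
        ((sgn (par k c) : ℝ) : ℂ) := by
      rw [sgn_add, Complex.star_def, Complex.conj_ofReal]
      push_cast
      rfl
    have e2 : ((sgn (sg k j + par k c') : ℝ) : ℂ) = ((sgn (sg k j) : ℝ) : ℂ) *
        ((sgn (par k c') : ℝ) : ℂ) := by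
      rw [sgn_add]
      push_cast
      rfl
    have e3 : ((sgn (par k c + par k c') : ℝ) : ℂ) = ((sgn (par k c) : ℝ) : ℂ) *
        ((sgn (par k c') : ℝ) : ℂ) := by
      rw [sgn_add]
      push_cast
      rfl
    have e4 : ∀ x : ZMod 2, ((sgn x : ℝ) : ℂ) * ((sgn x : ℝ) : ℂ) = 1 := by
      intro x
      exact_mod_cast congrArg (fun x : ℝ => (x : ℂ)) (sgn_sq x)
    rw [e1, e2, e3]
    have e5 := e4 (sg k i)
    have e6 := e4 (sg k j)
    linear_combination (star (WW w (Psi par sg) z (gE (t, res (nsp par K0 M) K0 y)) c a i) *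
      pos (Xs (t, res (nsp par K0 M) K0 y)) i j * WW w (Psi par sg) z (gE (t, res (nsp par K0 M) K0 y)) c' b j *
      ((sgn (par k c) : ℝ) : ℂ) * ((sgn (par k c') : ℝ) : ℂ)) *
      (((sgn (sg k j) : ℝ) : ℂ) * ((sgn (sg k j) : ℝ) : ℂ) * e5 + e6)
  · intro t ht y hy c hc
    have hp := hmem t ht y hy
    have h2 := hz1 c (gE (t, res (nsp par K0 M) K0 y)) ⟨_, ⟨hp, hc⟩, rfl⟩
    have h3 : dblk (Γ t y) c = gram (Matrix.of (gE (t, res (nsp par K0 M) K0 y)).1)
        (WW w (Psi par sg) z (gE (t, res (nsp par K0 M) K0 y)) c) := by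
      ext a b
      rw [hΓ]
      rfl
    rw [h3]
    exact h2
  obtain ⟨t, ht, y, hy, horth, hcard⟩ := hex
  have h2 := hz2 (gE (t, res (nsp par K0 M) K0 y)) ⟨_, hmem t ht y hy, rfl⟩ (by
    intro c c' hcc a b
    have h3 := horth c c' hcc a b
    rw [hΓ] at h3
    exact h3)
  have h3 : ∀ c, dblk (Γ t y) c = gram (Matrix.of (gE (t, res (nsp par K0 M) K0 y)).1)
        (WW w (Psi par sg) z (gE (t, res (nsp par K0 M) K0 y)) c) := by
    intro c
    ext a b
    rw [hΓ]
    rfl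
  simp only [h3] at hcard
  exact absurd h2 (not_lt.2 hcard)

end Pool.Agent.Y535.RK
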