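import Pool.Agent.Y269.RK.Stm

/-!
# Gram matrices
-/

set_option autoImplicit false

namespace Pool.Agent.Y535.RK

open Pool.Agent.Y269.RK Pool.Agent.Helper133.BT Pool.Agent.Helper133.BU
open Matrix hiding gram
open scoped ComplexOrder

variable {I A : Type} [Fintype I] [Fintype A]

/-- the matrix with given columns -/
def colm (u : A → I → ℂ) : Matrix I A ℂ := Matrix.of fun i a => u a i

omit [Fintype A] in
lemma herm_sum (P : Matrix I I ℂ) (u v : I → ℂ) :
    herm P u v = ∑ i, ∑ j, star (u i) * P i j * v j := by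
  unfold herm
  simp only [dotProduct, Matrix.mulVec, Pi.star_apply, Finset.mul_sum, mul_assoc]

omit [Fintype A] in
lemma gram_eq (P : Matrix I I ℂ) (u : A → I → ℂ) :
    gram P u = (colm u)ᴴ * P * colm u := by
  ext a b
  simp only [gram, Matrix.of_apply, herm_sum, Matrix.mul_apply, colm, Matrix.conjTranspose_apply,
    Finset.sum_mul]
  exact Finset.sum_comm

omit [Fintype A] in
lemma gram_psd [DecidableEq I] {P : Matrix I I ℂ} (hP : P.PosSemidef) [Finite A] (u : A → I → ℂ) :
    (gram P u).PosSemidef := by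
  rw [gram_eq]
  exact hP.conjTranspose_mul_mul_same _

lemma gram_rank (P : Matrix I I ℂ) [DecidableEq A] (u : A → I → ℂ) :
    (gram P u).rank ≤ P.rank := by
  rw [gram_eq]
  exact (Matrix.rank_mul_le_left _ _).trans (Matrix.rank_mul_le_right _ _)

lemma det_zero_of_rank [DecidableEq A] (G : Matrix A A ℂ) (h : G.rank < Fintype.card A) :
    G.det = 0 := by
  by_contra hne
  have h1 : IsUnit G := (Matrix.isUnit_iff_isUnit_det G).2 (isUnit_iff_ne_zero.2 hne)
  have h2 := Matrix.rank_of_isUnit G h1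
  omega

lemma gram_form (P : Matrix I I ℂ) (u : A → I → ℂ) (b : A → ℂ) :
    star b ⬝ᵥ (gram P u).mulVec b = herm P ((colm u).mulVec b) ((colm u).mulVec b) := by
  rw [gram_eq, herm, Matrix.mul_assoc, ← Matrix.mulVec_mulVec, ← Matrix.mulVec_mulVec,
    Matrix.dotProduct_mulVec, Matrix.star_mulVec]

omit [Fintype I] in
lemma colm_mulVec (u : A → I → ℂ) (b : A → ℂ) : (colm u).mulVec b = ∑ a, b a • u a := by
  ext i
  simp only [Matrix.mulVec, dotProduct, colm, Matrix.of_apply, Finset.sum_apply, Pi.smul_apply,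
    smul_eq_mul]
  exact Finset.sum_congr rfl fun a _ => mul_comm _ _

lemma gram_det_ne [DecidableEq A] {P : Matrix I I ℂ} {u : A → I → ℂ} (hu : LinearIndependent ℂ u)
    (hpos : ∀ v ∈ Submodule.span ℂ (Set.range u), v ≠ 0 → 0 < (herm P v v).re) :
    (gram P u).det ≠ 0 := by
  intro h0
  obtain ⟨b, hb, hb0⟩ := Matrix.exists_mulVec_eq_zero_iff.2 h0
  have h1 := gram_form P u b
  rw [hb0, dotProduct_zero, colm_mulVec] at h1
  have h2 : ∑ a, b a • u a ≠ 0 := by
    intro h
    apply hb
    funext a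
    exact Fintype.linearIndependent_iff.1 hu b h a
  have h3 := hpos (∑ a, b a • u a) (Submodule.sum_mem _ fun a _ =>
    Submodule.smul_mem _ _ (Submodule.subset_span ⟨a, rfl⟩)) h2
  rw [← h1] at h3
  simp at h3

omit [Fintype A] in
lemma herm_add_left (P Q : Matrix I I ℂ) (v w : I → ℂ) :
    herm (P + Q) v w = herm P v w + herm Q v w := by
  unfold herm
  rw [Matrix.add_mulVec, dotProduct_add]

omit [Fintype A] in
lemma herm_sub_left (P Q : Matrix I I ℂ) (v w : I → ℂ) :
    herm (P - Q) v w = herm P v w - herm Q v w := by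
  unfold herm
  rw [Matrix.sub_mulVec, dotProduct_sub]

omit [Fintype A] in
lemma herm_smul_one [DecidableEq I] (η : ℝ) (v : I → ℂ) :
    (herm ((η : ℂ) • (1 : Matrix I I ℂ)) v v).re = η * ∑ i, ‖v i‖ ^ 2 := by
  unfold herm
  rw [Matrix.smul_mulVec, Matrix.one_mulVec, dotProduct_smul, smul_eq_mul, Complex.re_ofReal_mul]
  congr 1
  rw [dotProduct, Complex.re_sum]
  refine Finset.sum_congr rfl fun i _ => ?_
  rw [Pi.star_apply, Complex.star_def, ← Complex.normSq_eq_conj_mul_self, Complex.ofReal_re,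
    Complex.normSq_eq_norm_sq]

omit [Fintype A] in
lemma herm_nonneg {P : Matrix I I ℂ} (hP : P.PosSemidef) (v : I → ℂ) : 0 ≤ (herm P v v).re := by
  have := hP.dotProduct_mulVec_nonneg v
  exact (Complex.le_def.1 this).1

/-- the sign is a character -/
lemma sgn_add (a b : ZMod 2) : sgn (a + b) = sgn a * sgn b := by
  have h : ∀ a : ZMod 2, a = 0 ∨ a = 1 := by decide
  have h1 : (1 : ZMod 2) ≠ 0 := by decide
  have h2 : (1 : ZMod 2) + 1 = 0 := by decide
  unfold sgn
  rcases h a with rfl | rfl <;> rcases h b with rfl | rfl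
  · simp
  · simp [h1]
  · simp [h1]
  · simp [h1, h2]

lemma sgn_sq (a : ZMod 2) : sgn a * sgn a = 1 := by
  rw [← sgn_add, CharTwo.add_self_eq_zero]
  simp [sgn]

lemma sgn_or (a : ZMod 2) : sgn a = 1 ∨ sgn a = -1 := by
  unfold sgn
  split_ifs <;> simp

end Pool.Agent.Y535.RK
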