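import Pool.Agent.Y535.RK.Psi

/-!
# The positive part as a function of the parameters
-/

set_option autoImplicit false

namespace Pool.Agent.Y535.RK

open Pool.Agent.Y269.RK Pool.Agent.Helper133.BT Pool.Agent.Helper133.BU
open Matrix hiding gram
open scoped ComplexOrder Topology

lemma TT_compact (m q : ℕ) : IsCompact (TT m q) := by
  refine (isCompact_Icc (a := (0 : Fin m → ℝ)) (b := 1)).of_isClosed_subset ?_ ?_
  · have h1 : IsClosed {t : Fin m → ℝ | ∀ c, 0 ≤ t c ∧ t c ≤ 1} := by
      simp only [Set.ofPred_forall, Set.ofPred_and]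
      exact isClosed_iInter fun c => (isClosed_le continuous_const (continuous_apply c)).inter
        (isClosed_le (continuous_apply c) continuous_const)
    have h2 : IsClosed {t : Fin m → ℝ | ∑ c, t c = q} :=
      isClosed_eq (continuous_finsetSum _ fun c _ => continuous_apply c) continuous_const
    exact h1.inter h2
  · intro t ht
    exact ⟨fun c => (ht.1 c).1, fun c => (ht.1 c).2⟩

lemma YY_compact (n : ℕ → ℕ) (K0 : ℕ) : IsCompact (YY n K0) := by
  have h : YY n K0 = Set.pi Set.univ (fun k : Fin K0 => K (n k)) := by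
    ext y
    simp [YY]
  rw [h]
  exact isCompact_univ_pi fun k => K_compact (n k)

lemma sum_sq_le {ι : Type} (s : Finset ι) (f : ι → ℝ) (hf : ∀ i ∈ s, 0 ≤ f i) :
    ∑ i ∈ s, f i ^ 2 ≤ (∑ i ∈ s, f i) ^ 2 := by
  classical
  induction s using Finset.induction_on with
  | empty => simp
  | insert a s ha ih =>
    rw [Finset.sum_insert ha, Finset.sum_insert ha]
    have h1 := ih fun i hi => hf i (Finset.mem_insert_of_mem hi)
    have h2 := hf a (Finset.mem_insert_self _ _)
    have h3 : 0 ≤ ∑ i ∈ s, f i := Finset.sum_nonneg fun i hi => hf i (Finset.mem_insert_of_mem hi)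
    nlinarith

/-- the positive part is locally Lipschitz -/
lemma pos_lip {I E : Type} [Fintype I] [NormedAddCommGroup E] (Ω : Set E)
    (pos : Matrix I I ℂ → Matrix I I ℂ)
    (h4 : ∀ X Y : Matrix I I ℂ, X.IsHermitian → Y.IsHermitian →
      ∑ i, ∑ j, ‖pos X i j - pos Y i j‖ ^ 2 ≤ ∑ i, ∑ j, ‖X i j - Y i j‖ ^ 2)
    (X : E → Matrix I I ℂ) (hX : ∀ i j, LocallyLipschitzOn Ω fun p => X p i j)
    (hH : ∀ p ∈ Ω, (X p).IsHermitian) :
    LocallyLipschitzOn Ω fun p => ((fun i j => pos (X p) i j : I → I → ℂ), p) := by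
  intro x hx
  choose Kc T hT hL using fun i j => hX i j hx
  refine ⟨1 + ∑ i, ∑ j, Kc i j, Ω ∩ ⋂ i, ⋂ j, T i j, ?_, ?_⟩
  · refine Filter.inter_mem self_mem_nhdsWithin ?_
    exact (Filter.iInter_mem).2 fun i => (Filter.iInter_mem).2 fun j => hT i j
  · refine LipschitzOnWith.of_dist_le_mul fun p hp p' hp' => ?_
    have hd : 0 ≤ dist p p' := dist_nonneg
    have hK : (0 : ℝ) ≤ ∑ i, ∑ j, (Kc i j : ℝ) :=
      Finset.sum_nonneg fun i _ => Finset.sum_nonneg fun j _ => (Kc i j).coe_nonneg
    have hcast : (((1 + ∑ i, ∑ j, Kc i j : NNReal) : NNReal) : ℝ) = 1 + ∑ i, ∑ j, (Kc i j : ℝ) := by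
      push_cast
      rfl
    rw [hcast, Prod.dist_eq]
    refine max_le ?_ ?_
    · rw [dist_pi_le_iff (by positivity)]
      intro i
      rw [dist_pi_le_iff (by positivity)]
      intro j
      rw [dist_eq_norm]
      have e1 : ‖pos (X p) i j - pos (X p') i j‖ ^ 2 ≤
          ∑ i, ∑ j, ‖pos (X p) i j - pos (X p') i j‖ ^ 2 := by
        refine le_trans ?_ (Finset.single_le_sum
          (f := fun i => ∑ j, ‖pos (X p) i j - pos (X p') i j‖ ^ 2)
          (fun i _ => Finset.sum_nonneg fun j _ => by positivity) (Finset.mem_univ i))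
        exact Finset.single_le_sum (f := fun j => ‖pos (X p) i j - pos (X p') i j‖ ^ 2)
          (fun j _ => by positivity) (Finset.mem_univ j)
      have e2 := h4 (X p) (X p') (hH p hp.1) (hH p' hp'.1)
      have e3 : ∑ i, ∑ j, ‖X p i j - X p' i j‖ ^ 2 ≤ (∑ i, ∑ j, ‖X p i j - X p' i j‖) ^ 2 := by
        refine (Finset.sum_le_sum fun i _ => sum_sq_le _ _ fun j _ => norm_nonneg _).trans ?_
        exact sum_sq_le _ _ fun i _ => Finset.sum_nonneg fun j _ => norm_nonneg _
      have e4 : ∑ i, ∑ j, ‖X p i j - X p' i j‖ ≤ (∑ i, ∑ j, (Kc i j : ℝ)) * dist p p' := by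
        rw [Finset.sum_mul]
        refine Finset.sum_le_sum fun i _ => ?_
        rw [Finset.sum_mul]
        refine Finset.sum_le_sum fun j _ => ?_
        have := (hL i j).dist_le_mul p (Set.mem_iInter.1 (Set.mem_iInter.1 hp.2 i) j) p'
          (Set.mem_iInter.1 (Set.mem_iInter.1 hp'.2 i) j)
        rwa [dist_eq_norm] at this
      have e5 : ‖pos (X p) i j - pos (X p') i j‖ ≤ ∑ i, ∑ j, ‖X p i j - X p' i j‖ := by
        refine (pow_le_pow_iff_left₀ (norm_nonneg _) ?_ two_ne_zero).1 ((e1.trans e2).trans e3)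
        exact Finset.sum_nonneg fun i _ => Finset.sum_nonneg fun j _ => norm_nonneg _
      refine (e5.trans e4).trans ?_
      rw [add_mul]
      linarith [mul_nonneg zero_le_one hd]
    · rw [add_mul, one_mul]
      linarith [mul_nonneg hK hd]

/-- the number of the pairs -/
lemma card_lt (m : ℕ) :
    2 * (Finset.univ.filter fun p : Fin m × Fin m => p.1 < p.2).card = m * (m - 1) := by
  have h1 : (Finset.univ.filter fun p : Fin m × Fin m => p.1 < p.2).card =
      (Finset.univ.filter fun p : Fin m × Fin m => p.2 < p.1).card := by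
    refine Finset.card_bij (fun p _ => p.swap) ?_ ?_ ?_
    · intro p hp
      simpa using hp
    · intro p _ p' _ h
      exact Prod.swap_injective h
    · intro p hp
      exact ⟨p.swap, by simpa using hp, Prod.swap_swap p⟩
  have h2 : (Finset.univ.filter fun p : Fin m × Fin m => p.1 < p.2) ∪
      (Finset.univ.filter fun p : Fin m × Fin m => p.2 < p.1) =
      (Finset.univ : Finset (Fin m)).offDiag := by
    ext p
    simp only [Finset.mem_union, Finset.mem_filter, Finset.mem_univ, true_and,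
      Finset.mem_offDiag]
    exact lt_or_lt_iff_ne
  have h3 : Disjoint (Finset.univ.filter fun p : Fin m × Fin m => p.1 < p.2)
      (Finset.univ.filter fun p : Fin m × Fin m => p.2 < p.1) := by
    rw [Finset.disjoint_filter]
    intro p _ h h'
    exact absurd h' h.not_gt
  have h4 := Finset.card_union_of_disjoint h3
  rw [h2, Finset.offDiag_card, Finset.card_univ, Fintype.card_fin, ← h1] at h4
  rw [Nat.mul_sub, Nat.mul_one]
  omega

lemma sum_nsp {m : ℕ} (par : ℕ → Fin m → ZMod 2) (K0 M : ℕ) :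
    ∑ k : Fin K0, nsp par K0 M k ≤ K0 + M ^ 2 * (m * (m - 1)) := by
  have h1 : ∑ k : Fin K0, nsp par K0 M k ≤ ∑ k : Fin K0, (1 + 2 * M ^ 2 *
      (Finset.univ.filter fun p : Fin m × Fin m => p.1 < p.2 ∧ lead par K0 p.1 p.2 = k).card) := by
    refine Finset.sum_le_sum fun k _ => ?_
    unfold nsp
    exact max_le (by omega) (by omega)
  refine h1.trans ?_
  rw [Finset.sum_add_distrib, ← Finset.mul_sum]
  have h2 : ∑ k : Fin K0,
      (Finset.univ.filter fun p : Fin m × Fin m => p.1 < p.2 ∧ lead par K0 p.1 p.2 = k).card ≤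
      (Finset.univ.filter fun p : Fin m × Fin m => p.1 < p.2).card := by
    rw [← Finset.card_biUnion]
    · refine Finset.card_le_card ?_
      intro p hp
      obtain ⟨k, -, hk⟩ := Finset.mem_biUnion.1 hp
      rw [Finset.mem_filter] at hk ⊢
      exact ⟨hk.1, hk.2.1⟩
    · intro k _ k' _ hkk
      refine Finset.disjoint_filter.2 fun p _ h h' => hkk ?_
      exact Fin.ext (h.2.symm.trans h'.2)
  calc ∑ _k : Fin K0, 1 + 2 * M ^ 2 * ∑ k : Fin K0,
      (Finset.univ.filter fun p : Fin m × Fin m => p.1 < p.2 ∧ lead par K0 p.1 p.2 = k).card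
      ≤ K0 + 2 * M ^ 2 * (Finset.univ.filter fun p : Fin m × Fin m => p.1 < p.2).card := by
        refine Nat.add_le_add (by simp) (Nat.mul_le_mul_left _ h2)
    _ = K0 + M ^ 2 * (m * (m - 1)) := by rw [← card_lt m]; ring

end Pool.Agent.Y535.RK
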