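import Pool.Agent.Y535.RK.Gram

/-!
# The perturbations
-/

set_option autoImplicit false

namespace Pool.Agent.Y535.RK

open Pool.Agent.Y269.RK Pool.Agent.Helper133.BT Pool.Agent.Helper133.BU
open Matrix hiding gram
open scoped ComplexOrder

/-- the points -/
abbrev Yt (n : ℕ → ℕ) (K0 : ℕ) : Type := ∀ k : Fin K0, (Fin (n k + 1) → ℝ)

/-- the choices of coordinates -/
abbrev Rt (n : ℕ → ℕ) (K0 : ℕ) : Type := ∀ k : Fin K0, Fin (n k + 1)

/-- the parameter space -/
abbrev Et (I : Type) (m : ℕ) (n : ℕ → ℕ) (K0 : ℕ) : Type := (I → I → ℂ) × (Fin m → ℝ) × Yt n K0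

/-- the space of the perturbations -/
abbrev Zt (I : Type) (n : ℕ → ℕ) (K0 : ℕ) : Type := I → Rt n K0 → ℂ

section

variable {m K0 : ℕ} {n : ℕ → ℕ} {I : Type} [Fintype I] [DecidableEq I]

/-- the monomials -/
noncomputable def psi (par : ℕ → Fin m → ZMod 2) (sg : ℕ → I → ZMod 2) (c : Fin m) (i : I)
    (r : Rt n K0) (y : Yt n K0) : ℝ :=
  ∏ k : Fin K0, if sg k i = par k c then 1 else y k (r k)

/-- one coordinate -/
noncomputable def BB (i : I) (r : Rt n K0) : Zt I n K0 →L[ℂ] (I → ℂ) :=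
  LinearMap.toContinuousLinearMap
    { toFun := fun z => Pi.single i (z i r)
      map_add' := fun z z' => by rw [Pi.add_apply, Pi.add_apply, Pi.single_add]
      map_smul' := fun a z => by
        rw [Pi.smul_apply, Pi.smul_apply, RingHom.id_apply, Pi.single_smul] }

lemma BB_apply (i : I) (r : Rt n K0) (z : Zt I n K0) : BB i r z = Pi.single i (z i r) := rfl

/-- the perturbation -/
noncomputable def Psi (par : ℕ → Fin m → ZMod 2) (sg : ℕ → I → ZMod 2) (c : Fin m)
    (x : Et I m n K0) : Zt I n K0 →L[ℂ] (I → ℂ) :=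
  ∑ i, ∑ r, psi par sg c i r x.2.2 • BB i r

lemma Psi_apply (par : ℕ → Fin m → ZMod 2) (sg : ℕ → I → ZMod 2) (c : Fin m) (x : Et I m n K0)
    (z : Zt I n K0) (i : I) :
    Psi par sg c x z i = ∑ r, (psi par sg c i r x.2.2 : ℂ) * z i r := by
  unfold Psi
  simp only [_root_.sum_apply, _root_.smul_apply, Finset.sum_apply,
    BB_apply, Pi.smul_apply, Complex.real_smul]
  rw [Finset.sum_eq_single i]
  · simp
  · intro j _ hj
    refine Finset.sum_eq_zero fun r _ => ?_
    rw [Pi.single_eq_of_ne hj.symm, mul_zero]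
  · intro h
    exact absurd (Finset.mem_univ _) h

omit [DecidableEq I] in
lemma psi_contDiff (par : ℕ → Fin m → ZMod 2) (sg : ℕ → I → ZMod 2) (c : Fin m) (i : I)
    (r : Rt n K0) : ContDiff ℝ 1 fun x : Et I m n K0 => psi par sg c i r x.2.2 := by
  unfold psi
  refine contDiff_prod fun k _ => ?_
  by_cases h : sg k i = par k c
  · simp only [if_pos h]
    exact contDiff_const
  · simp only [if_neg h]
    exact ((ContinuousLinearMap.proj (R := ℝ) (φ := fun _ : Fin (n k + 1) => ℝ) (r k)).comp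
      ((ContinuousLinearMap.proj (R := ℝ) (φ := fun k : Fin K0 => (Fin (n k + 1) → ℝ)) k).comp
        ((ContinuousLinearMap.snd ℝ (Fin m → ℝ) (Yt n K0)).comp
          (ContinuousLinearMap.snd ℝ (I → I → ℂ) ((Fin m → ℝ) × Yt n K0))))).contDiff

lemma Psi_contDiff (par : ℕ → Fin m → ZMod 2) (sg : ℕ → I → ZMod 2) (c : Fin m) :
    ContDiff ℝ 1 (Psi par sg c : Et I m n K0 → _) := by
  unfold Psi
  exact ContDiff.sum fun i _ => ContDiff.sum fun r _ =>
    (psi_contDiff par sg c i r).smul contDiff_const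

lemma K_ne {l : ℕ} {y : Fin (l + 1) → ℝ} (hy : y ∈ K l) : ∃ r, y r ≠ 0 := by
  by_contra h
  push Not at h
  have h1 : ∑ i, |y i| = 1 := hy
  simp [h] at h1

lemma Psi_surj (par : ℕ → Fin m → ZMod 2) (sg : ℕ → I → ZMod 2) (c : Fin m) (x : Et I m n K0)
    (hx : x.2.2 ∈ YY n K0) : Function.Surjective (Psi par sg c x) := by
  intro u
  choose r hr using fun k : Fin K0 => K_ne (hx k)
  have hpsi : ∀ i, psi par sg c i r x.2.2 ≠ 0 := by
    intro i
    unfold psi
    refine Finset.prod_ne_zero_iff.2 fun k _ => ?_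
    split_ifs
    · exact one_ne_zero
    · exact hr k
  refine ⟨fun i r' => if r' = r then u i / (psi par sg c i r x.2.2 : ℂ) else 0, ?_⟩
  ext i
  rw [Psi_apply, Finset.sum_eq_single r]
  · rw [if_pos rfl, mul_div_cancel₀]
    exact_mod_cast hpsi i
  · intro r' _ hr'
    rw [if_neg hr', mul_zero]
  · intro h
    exact absurd (Finset.mem_univ _) h

omit [Fintype I] [DecidableEq I] in
lemma psi_flf (par : ℕ → Fin m → ZMod 2) (sg : ℕ → I → ZMod 2) (c : Fin m) (i : I)
    (r : Rt n K0) (y : Yt n K0) (k : Fin K0) :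
    psi par sg c i r (flf k y) = sgn (sg k i + par k c) * psi par sg c i r y := by
  unfold psi
  rw [← Finset.mul_prod_erase _ _ (Finset.mem_univ k), ← Finset.mul_prod_erase Finset.univ
    (fun k : Fin K0 => if sg k i = par k c then (1 : ℝ) else y k (r k)) (Finset.mem_univ k),
    ← mul_assoc]
  congr 1
  · by_cases h : sg k i = par k c
    · rw [if_pos h, if_pos h, h, CharTwo.add_self_eq_zero]
      simp [sgn]
    · rw [if_neg h, if_neg h]
      have h2 : sg k i + par k c ≠ 0 := by
        intro h3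
        apply h
        have h4 : ∀ a b : ZMod 2, a + b = 0 → a = b := by decide
        exact h4 _ _ h3
      unfold sgn
      rw [if_neg h2]
      simp [flf]
  · refine Finset.prod_congr rfl fun k' hk' => ?_
    have : flf k y k' = y k' := by
      unfold flf
      rw [Function.update_of_ne (Finset.ne_of_mem_erase hk')]
    rw [this]

/-- the perturbed vectors are equivariant -/
lemma WW_flf {M : ℕ} (par : ℕ → Fin m → ZMod 2) (sg : ℕ → I → ZMod 2)
    (w : Fin m → Fin M → I → ℂ) (hw : ∀ c a i, w c a i ≠ 0 → ∀ k < K0, sg k i = par k c)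
    (z : Fin m → Fin M → Zt I n K0) (P P' : I → I → ℂ) (t : Fin m → ℝ) (y : Yt n K0) (k : Fin K0)
    (c : Fin m) (a : Fin M) (i : I) :
    WW w (Psi par sg) z (P', t, flf k y) c a i =
      (sgn (sg k i + par k c) : ℂ) * WW w (Psi par sg) z (P, t, y) c a i := by
  unfold WW
  rw [Pi.add_apply, Pi.add_apply, Psi_apply, Psi_apply, mul_add, Finset.mul_sum]
  congr 1
  · by_cases h : w c a i = 0
    · rw [h, mul_zero]
    · rw [hw c a i h k k.2, CharTwo.add_self_eq_zero]
      simp [sgn]
  · refine Finset.sum_congr rfl fun r _ => ?_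
    have := psi_flf par sg c i r y k
    simp only [this]
    push_cast
    ring

end

end Pool.Agent.Y535.RK
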